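import Pool.Agent.H20.RCC.Stmts

set_option autoImplicit false

namespace Pool.RCC

namespace HLP

theorem pw (v : ℕ → ℕ) : (wd v).Pairwise (· ≥ ·) := by
  simp only [wd, List.pairwise_append, List.pairwise_replicate, List.mem_append,
    List.mem_replicate]
  refine ⟨Or.inr le_rfl, ⟨Or.inr le_rfl, ⟨Or.inr le_rfl, ⟨Or.inr le_rfl, ⟨Or.inr le_rfl,
    ⟨Or.inr le_rfl, ⟨Or.inr le_rfl, ⟨Or.inr le_rfl, Or.inr le_rfl, ?_⟩, ?_⟩, ?_⟩, ?_⟩, ?_⟩, ?_⟩,
    ?_⟩, ?_⟩ <;> intro a ha b hb <;> omega

theorem bd (v : ℕ → ℕ) : ∀ d ∈ wd v, 1 ≤ d ∧ d ≤ 9 := by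
  intro d hd
  simp only [wd, List.mem_append, List.mem_replicate] at hd
  omega

theorem ct (v : ℕ → ℕ) (d : ℕ) (h1 : 1 ≤ d) (h9 : d ≤ 9) : (wd v).count d = v d := by
  simp only [wd, List.count_append, List.count_replicate]
  interval_cases d <;> simp

theorem ln (v : ℕ → ℕ) : (wd v).length = tot v := by
  simp only [wd, tot, List.length_append, List.length_replicate]
  ring

theorem ct0 (v : ℕ → ℕ) (h0 : v 0 = 0) (h10 : ∀ d, 10 ≤ d → v d = 0) (d : ℕ) :
    (wd v).count d = v d := by
  by_cases h : 1 ≤ d ∧ d ≤ 9
  · exact ct v d h.1 h.2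
  · have h1 : (wd v).count d = 0 := List.count_eq_zero_of_not_mem fun h2 => h (bd v d h2)
    rw [h1]
    by_cases h2 : d = 0
    · rw [h2, h0]
    · rw [h10 d (by omega)]

theorem two (k : ℕ) (L : List ℕ) (h : ∀ d ∈ L, d ≠ k ∧ d ≠ k + 1) :
    (L.filter (fun d => decide (k + 1 < d))).length +
      (L.filter (fun d => decide (d < k))).length = L.length := by
  induction L with
  | nil => rfl
  | cons a L ih =>
    have h1 := ih fun d hd => h d (List.mem_cons_of_mem _ hd)
    obtain ⟨h2, h3⟩ := h a List.mem_cons_self
    rw [List.filter_cons, List.filter_cons]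
    by_cases h4 : k + 1 < a
    · have h5 : ¬ a < k := by omega
      simp only [h4, h5, decide_true, decide_false, if_true, List.length_cons]
      simp only [Bool.false_eq_true, if_false]
      omega
    · have h5 : a < k := by omega
      simp only [h4, h5, decide_true, decide_false, if_true, List.length_cons]
      simp only [Bool.false_eq_true, if_false]
      omega

end HLP

theorem HLP_thm : HLPStmt := by
  intro k v hOK hk
  obtain ⟨hk8, h0, h10, hlo, hk1⟩ := hOK
  have hlok : lo k = k := by unfold lo; rw [if_neg (by omega)]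
  rw [hlok] at hlo
  have hct := HLP.ct0 v h0 h10
  refine ⟨?_, ?_, ?_, ?_, ?_, ?_⟩
  · exact (HLP.pw v).filter _
  · rw [Lw, List.pairwise_reverse]
    exact (HLP.pw v).filter _
  · intro h hh
    rw [Hi, List.mem_filter] at hh
    exact ⟨of_decide_eq_true hh.2, (HLP.bd v h hh.1).2⟩
  · intro l hl
    rw [Lw, List.mem_reverse, List.mem_filter] at hl
    exact ⟨(HLP.bd v l hl.1).1, of_decide_eq_true hl.2⟩
  · intro d
    rw [List.count_append, Lw, List.count_reverse, Hi]
    by_cases h1 : k + 1 < d
    · rw [List.count_filter (by simpa using h1), hct d]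
      have h2 : (List.filter (fun d => decide (d < k)) (wd v)).count d = 0 := by
        apply List.count_eq_zero_of_not_mem
        intro h3
        have := of_decide_eq_true (List.mem_filter.1 h3).2
        omega
      rw [h2]
      rfl
    · have h2 : (List.filter (fun d => decide (k + 1 < d)) (wd v)).count d = 0 := by
        apply List.count_eq_zero_of_not_mem
        intro h3
        exact h1 (of_decide_eq_true (List.mem_filter.1 h3).2)
      rw [h2, Nat.zero_add]
      by_cases h3 : d < k
      · rw [List.count_filter (by simpa using h3), hct d]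
      · have h4 : (List.filter (fun d => decide (d < k)) (wd v)).count d = 0 := by
          apply List.count_eq_zero_of_not_mem
          intro h5
          exact h3 (of_decide_eq_true (List.mem_filter.1 h5).2)
        rw [h4]
        have h5 : d = k ∨ d = k + 1 := by omega
        rcases h5 with h5 | h5
        · rw [h5, hlo]
        · rw [h5, hk1]
  · rw [Lw, List.length_reverse, Hi, HLP.two k (wd v) ?_, HLP.ln]
    intro d hd
    constructor
    · rintro rfl
      have := List.count_pos_iff.2 hd
      rw [hct, hlo] at this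
      omega
    · rintro rfl
      have := List.count_pos_iff.2 hd
      rw [hct, hk1] at this
      omega

end Pool.RCC
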